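import Mathlib
import Pool.Agent.H413.G.R_seed8.H494R3.NK.Stmts

set_option autoImplicit false

namespace Pool.Agent.H720R3.NKSpectral

open Finset

universe u

theorem taskSpectral : Pool.Agent.H494R3.NK.TaskSpectral.{u} := by
  classical
  intro U _ h N hN hsa hfin hlow
  have hc : ∀ f : ℝ → ℝ, ContinuousOn f (spectrum ℝ h) := fun f => hfin.continuousOn f
  set E : ℝ → ℝ := fun t => if N ≤ t then 1 else 0 with hE
  set S : Finset ℝ := hfin.toFinset.filter (fun t => N ≤ t) with hS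
  have hSm : ∀ μ, μ ∈ S ↔ μ ∈ spectrum ℝ h ∧ N ≤ μ := by
    intro μ
    rw [hS, mem_filter, Set.Finite.mem_toFinset]
  let g : ℝ → U := fun μ => cfc (fun t : ℝ => if t = μ then (1 : ℝ) else 0) h
  have hsum : ∑ μ ∈ S, g μ = cfc E h := by
    rw [← cfc_sum (fun (μ : ℝ) (t : ℝ) => if t = μ then (1 : ℝ) else 0) h S (fun i _ => hc _)]
    refine cfc_congr fun t ht => ?_
    rw [Finset.sum_apply, hE]
    simp only
    rw [Finset.sum_ite_eq]
    by_cases h1 : N ≤ t
    · rw [if_pos ((hSm t).2 ⟨ht, h1⟩), if_pos h1]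
    · rw [if_neg (fun h2 => h1 ((hSm t).1 h2).2), if_neg h1]
  have hhE : h * cfc E h = cfc (fun t => t * E t) h := by
    conv_lhs => rw [← cfc_id' ℝ h hsa]
    have h3 := cfc_mul (fun t : ℝ => t) E h (hc _) (hc _)
    rw [h3]
    congr 2
    rw [cfc_id' ℝ h hsa]
  refine ⟨S, g, ?_, ?_, ?_, ?_, ?_, ?_, ?_⟩
  · intro μ hμ
    obtain ⟨h1, h2⟩ := (hSm μ).1 hμ
    refine ⟨h2, ?_⟩
    have : Nontrivial U := by
      by_contra h3
      rw [not_nontrivial_iff_subsingleton] at h3
      rw [spectrum.of_subsingleton] at h1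
      exact h1
    exact (le_abs_self μ).trans (spectrum.norm_le_norm_of_mem h1)
  · intro μ _
    constructor
    · rw [← cfc_mul _ _ h (hc _) (hc _)]
      refine cfc_congr fun t _ => ?_
      by_cases h1 : t = μ <;> simp [h1]
    · exact (cfc_predicate (p := IsSelfAdjoint) _ h)
  · intro μ _ ν _ hne
    change cfc _ h * cfc _ h = 0
    rw [← cfc_mul _ _ h (hc _) (hc _)]
    rw [← cfc_zero ℝ h]
    refine cfc_congr fun t _ => ?_
    by_cases h1 : t = μ
    · subst h1
      simp [hne]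
    · simp [h1]
  · rw [hsum, hhE]
    have h1 : ∀ μ ∈ S, μ • g μ = cfc (fun t : ℝ => μ * if t = μ then (1 : ℝ) else 0) h := by
      intro μ _
      rw [cfc_const_mul μ _ h (hc _)]
    rw [sum_congr rfl h1,
      ← cfc_sum (fun (μ : ℝ) (t : ℝ) => μ * if t = μ then (1 : ℝ) else 0) h S (fun i _ => hc _)]
    refine cfc_congr fun t ht => ?_
    rw [Finset.sum_apply, hE]
    simp only [mul_ite, mul_one, mul_zero]
    rw [Finset.sum_ite_eq]
    by_cases h1 : N ≤ t
    · rw [if_pos ((hSm t).2 ⟨ht, h1⟩), if_pos h1]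
    · rw [if_neg (fun h2 => h1 ((hSm t).1 h2).2), if_neg h1]
  · rw [hsum, hhE]
    conv_lhs => rw [← cfc_id' ℝ h hsa]
    have h3 := cfc_mul E (fun t : ℝ => t) h (hc _) (hc _)
    rw [cfc_id' ℝ h hsa] at h3 ⊢
    rw [← h3]
    refine cfc_congr fun t _ => ?_
    exact mul_comm _ _
  · rw [hsum, mul_sub, mul_one, hhE]
    have h3 := cfc_sub (fun t : ℝ => t) (fun t => t * E t) h (hc _) (hc _)
    rw [cfc_id' ℝ h hsa] at h3
    rw [← h3]
    refine norm_cfc_le hN.le fun t ht => ?_
    rw [hE]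
    by_cases h1 : N ≤ t
    · simp [h1, hN.le]
    · simp only [h1, if_false, mul_zero, sub_zero]
      rw [Real.norm_eq_abs, abs_le]
      push Not at h1
      exact ⟨hlow t ht, h1.le⟩
  · refine ⟨cfc (fun t : ℝ => if N ≤ t then 1 / t else 0) h, ?_, ?_⟩
    · rw [hsum, hhE, ← cfc_mul _ _ h (hc _) (hc _)]
      refine cfc_congr fun t _ => ?_
      rw [hE]
      by_cases h1 : N ≤ t
      · have : t ≠ 0 := (lt_of_lt_of_le hN h1).ne'
        simp [h1, this]
      · simp [h1]
    · refine norm_cfc_le (by positivity) fun t ht => ?_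
      by_cases h1 : N ≤ t
      · simp only [h1, if_true]
        have : 0 < t := lt_of_lt_of_le hN h1
        rw [Real.norm_eq_abs, abs_of_pos (by positivity)]
        exact one_div_le_one_div_of_le hN h1
      · simp only [h1, if_false, norm_zero]
        positivity

end Pool.Agent.H720R3.NKSpectral
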